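import Mathlib
import Pool.Agent.U437.TQ.Blich

/-!
# A self-dual positive definite lattice of rank 16 has a vector of norm less than four
-/

set_option autoImplicit false

namespace Pool.Agent.U437.TQ

open Matrix Module

theorem selfdual_exists {V : Type} [AddCommGroup V] [Module ℚ V] [FiniteDimensional ℚ V]
    (hV : Module.finrank ℚ V = 16) (T : LinearMap.BilinForm ℚ V)
    (symm : ∀ x y, T x y = T y x) (pos : ∀ x, x ≠ 0 → 0 < T x x)
    (M : Submodule ℤ V) (hL : Submodule.IsLattice ℚ M)
    (hint : ∀ x ∈ M, ∀ y ∈ M, ∃ n : ℤ, T x y = n)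
    (sd : ∀ x, (∀ y ∈ M, ∃ n : ℤ, T x y = n) → x ∈ M) :
    ∃ y ∈ M, y ≠ 0 ∧ T y y < 4 := by
  classical
  have : Module.Free ℤ M := Submodule.IsLattice.free ℚ M
  have hfr : Module.finrank ℤ M = 16 := by
    have h1 := Submodule.IsLattice.rank' ℚ M
    rw [← hV, Module.finrank, h1, Module.finrank]
  let b : Basis (Fin 16) ℤ M := (Module.finBasis ℤ M).reindex (finCongr hfr)
  let v : Basis (Fin 16) ℚ V := b.extendOfIsLattice ℚ
  have hv : ∀ i, v i = (b i : V) := fun i => by simp [v]
  have hnd : T.Nondegenerate := by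
    constructor
    · intro x hx
      by_contra h0
      exact (pos x h0).ne' (hx x)
    · intro x hx
      by_contra h0
      exact (pos x h0).ne' (hx x)
  -- the Gram matrix
  have hG : ∀ i j, ∃ n : ℤ, T (b i) (b j) = n := fun i j => hint _ (b i).2 _ (b j).2
  choose G hG using hG
  let Gz : Matrix (Fin 16) (Fin 16) ℤ := Matrix.of G
  let d := T.dualBasis hnd v
  have hd : ∀ i, d i ∈ M := by
    intro i
    apply sd
    intro y hy
    have h1 : (y : V) = ∑ j, (b.repr ⟨y, hy⟩ j) • (b j : V) := by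
      have h2 := b.sum_repr ⟨y, hy⟩
      have h3 := congrArg (fun z : M => (z : V)) h2
      simp only [AddSubmonoidClass.coe_finsetSum, SetLike.val_smul] at h3
      exact h3.symm
    rw [h1, map_sum]
    refine ⟨∑ j, (b.repr ⟨y, hy⟩ j) * (if j = i then 1 else 0), ?_⟩
    push_cast
    refine Finset.sum_congr rfl fun j _ => ?_
    rw [map_zsmul, ← hv j, LinearMap.BilinForm.apply_dualBasis_left, zsmul_eq_mul]
  let A : Matrix (Fin 16) (Fin 16) ℤ := Matrix.of fun i k => b.repr ⟨d i, hd i⟩ k
  have hAG : A * Gz = 1 := by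
    ext i j
    have h1 : (d i : V) = ∑ k, (A i k) • (b k : V) := by
      have h2 := b.sum_repr ⟨d i, hd i⟩
      have h3 := congrArg (fun z : M => (z : V)) h2
      simp only [AddSubmonoidClass.coe_finsetSum, SetLike.val_smul] at h3
      exact h3.symm
    have h2 : T (d i) (b j) = if j = i then 1 else 0 := by
      rw [← hv j]
      exact LinearMap.BilinForm.apply_dualBasis_left hnd v i j
    rw [h1, map_sum, LinearMap.sum_apply] at h2
    have h3 : ∑ k, (T (A i k • (b k : V))) (b j) = ∑ k, (A i k : ℚ) * G k j := by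
      refine Finset.sum_congr rfl fun k _ => ?_
      rw [map_zsmul, LinearMap.smul_apply, zsmul_eq_mul, hG]
    rw [h3] at h2
    rw [Matrix.mul_apply, Matrix.one_apply]
    have h4 : ((∑ k, A i k * Gz k j : ℤ) : ℚ) = ((if i = j then 1 else 0 : ℤ) : ℚ) := by
      push_cast
      rw [show (if i = j then (1 : ℚ) else 0) = if j = i then 1 else 0 by simp [eq_comm]]
      exact h2
    exact_mod_cast h4
  have hdet : IsUnit Gz.det := by
    have h1 := congrArg Matrix.det hAG
    rw [Matrix.det_mul, Matrix.det_one] at h1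
    exact IsUnit.of_mul_eq_one A.det (by rw [mul_comm]; exact h1)
  -- over the reals
  let H : Matrix (Fin 16) (Fin 16) ℝ := Gz.map (fun n : ℤ => (n : ℝ))
  have hHdet : H.det = (Gz.det : ℝ) := by
    have := (Int.castRingHom ℝ).map_det Gz
    exact this.symm
  have hTq : ∀ c : Fin 16 → ℚ, T (∑ i, c i • v i) (∑ i, c i • v i) =
      ∑ i, ∑ j, c i * c j * G i j := by
    intro c
    simp only [map_sum, LinearMap.sum_apply, map_smul, LinearMap.smul_apply, smul_eq_mul, hv, hG]
    rw [Finset.sum_comm]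
    refine Finset.sum_congr rfl fun i _ => ?_
    rw [Finset.mul_sum]
    refine Finset.sum_congr rfl fun j _ => ?_
    ring
  have hqf : ∀ x : Fin 16 → ℝ, qf H x = ∑ i, ∑ j, x i * x j * G i j := by
    intro x
    unfold qf
    rw [dotProduct]
    refine Finset.sum_congr rfl fun i _ => ?_
    rw [mulVec, dotProduct, Finset.mul_sum]
    refine Finset.sum_congr rfl fun j _ => ?_
    change x i * ((G i j : ℝ) * x j) = _
    ring
  have hsym : H.IsHermitian := by
    ext i j
    rw [conjTranspose_apply, star_trivial]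
    change ((G j i : ℤ) : ℝ) = ((G i j : ℤ) : ℝ)
    have h1 : (G j i : ℚ) = G i j := by rw [← hG, ← hG, symm]
    have h2 : G j i = G i j := by exact_mod_cast h1
    rw [h2]
  have hpsd : H.PosSemidef := by
    refine PosSemidef.of_dotProduct_mulVec_nonneg hsym fun x => ?_
    rw [star_trivial]
    change 0 ≤ qf H x
    have hdense : DenseRange (fun (q : Fin 16 → ℚ) (i : Fin 16) => ((q i : ℚ) : ℝ)) :=
      DenseRange.piMap (fun _ => Rat.denseRange_cast)
    refine hdense.induction_on (p := fun x => 0 ≤ qf H x) x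
      (isClosed_le continuous_const (continuous_qf H)) ?_
    intro q
    rw [hqf]
    have h1 : 0 ≤ T (∑ i, q i • v i) (∑ i, q i • v i) := by
      by_cases h0 : (∑ i, q i • v i) = 0
      · rw [h0]
        simp
      · exact (pos _ h0).le
    rw [hTq] at h1
    have h2 : (0 : ℝ) ≤ ((∑ i, ∑ j, q i * q j * G i j : ℚ) : ℝ) := by exact_mod_cast h1
    push_cast at h2
    exact h2
  have hdet0 : Gz.det ≠ 0 := hdet.ne_zero
  have hpd : H.PosDef := by
    rw [hpsd.posDef_iff_det_ne_zero, hHdet]
    exact_mod_cast hdet0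
  have hdle : H.det ≤ 44 := by
    rw [hHdet]
    rcases Int.isUnit_iff.mp hdet with h | h <;> rw [h] <;> norm_num
  obtain ⟨w, hw0, hw⟩ := exists_lt_four H hpd hdle
  refine ⟨∑ i, w i • (b i : V), M.sum_mem fun i _ => M.smul_mem _ (b i).2, ?_, ?_⟩
  · intro h0
    apply hw0
    have h1 : ∑ i, w i • b i = 0 := by
      apply Subtype.ext
      simp only [AddSubmonoidClass.coe_finsetSum, SetLike.val_smul, ZeroMemClass.coe_zero]
      exact h0
    funext i
    exact Fintype.linearIndependent_iff.mp b.linearIndependent w h1 i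
  · have h1 : ∑ i, w i • (b i : V) = ∑ i, (w i : ℚ) • v i := by
      refine Finset.sum_congr rfl fun i _ => ?_
      rw [hv, Int.cast_smul_eq_zsmul]
    rw [h1, hTq]
    rw [hqf] at hw
    have h2 : ((∑ i, ∑ j, (w i : ℚ) * (w j : ℚ) * G i j : ℚ) : ℝ) < 4 := by
      push_cast
      exact hw
    exact_mod_cast h2

end Pool.Agent.U437.TQ
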